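import Pool.Agent.Lib.MP_ec63c8_an.MultC

set_option autoImplicit false
open Filter Topology MeasureTheory

namespace Pool.Agent.Results.MP_ec63c8_an.LpNecessityFails

/-- For `2 < p < ∞` there is a norm continuous, strongly stable contraction semigroup on `L^p` of
the unit square, with all resolvent integrals finite, and a vector for which the resolvent
condition fails. -/
theorem result :
    ∀ (p : ENNReal) [Fact (1 ≤ p)], 2 < p → p ≠ ⊤ →
      ∃ T : ℝ → (Lp ℂ p (volume : Measure (unitInterval × unitInterval)) →L[ℂ]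
          Lp ℂ p (volume : Measure (unitInterval × unitInterval))),
        T 0 = 1 ∧
        (∀ s t : ℝ, T (s + t) = T s * T t) ∧
        Continuous T ∧
        (∀ t : ℝ, 0 ≤ t → ‖T t‖ ≤ 1) ∧
        (∀ g : Lp ℂ p (volume : Measure (unitInterval × unitInterval)),
          Tendsto (fun t : ℝ => T t g) atTop (𝓝 0) ∧
          (∀ a : ℝ, 0 < a → ∀ s : ℝ, IntegrableOn (fun t : ℝ =>
            Complex.exp (-(((a : ℂ) + (s : ℂ) * Complex.I) * (t : ℂ))) • T t g)
            (Set.Ioi (0 : ℝ))) ∧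
          (∀ a : ℝ, 0 < a →
            ∫⁻ s : ℝ, ((‖∫ t in Set.Ioi (0 : ℝ),
              Complex.exp (-(((a : ℂ) + (s : ℂ) * Complex.I) * (t : ℂ))) • T t g‖₊ : ENNReal)) ^ 2
            < ⊤)) ∧
        ∃ g : Lp ℂ p (volume : Measure (unitInterval × unitInterval)),
          ¬ Tendsto
            (fun a : ℝ => ENNReal.ofReal a *
              ∫⁻ s : ℝ, ((‖∫ t in Set.Ioi (0 : ℝ),
                Complex.exp (-(((a : ℂ) + (s : ℂ) * Complex.I) * (t : ℂ))) • T t g‖₊ :
                  ENNReal)) ^ 2)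
            (𝓝[>] (0 : ℝ)) (𝓝 0) := by
  intro p _ hp2 hp
  open Pool.Agent.Lib.MP_ec63c8_an.Sq in
  obtain ⟨n, hn, hnq⟩ := exists_n p hp2 hp
  open Pool.Agent.Lib.MP_ec63c8_an.Sq in
  exact ⟨sg p n, sg_zero p n, sg_add p n, continuous_sg p n, fun t ht => norm_sg_le p n ht,
    fun g => ⟨stable p hp n g, fun a ha s => integrableOn_sg p n g ha s,
      fun a ha => resolvent_lt_top p n g ha⟩, one p, not_resolvent p hp hn hnq⟩

end Pool.Agent.Results.MP_ec63c8_an.LpNecessityFails
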