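import Pool.Agent.Lib.MP_ec63c8_an.Shift

set_option autoImplicit false
open Filter Topology MeasureTheory

namespace Pool.Agent.Results.MP_ec63c8_an.SufficiencyFails

/-- There are a complex Banach space, an isometric strongly continuous semigroup `T` on it and a
nonzero vector `x` (so the orbit is not stable) whose resolvent integrals are bounded uniformly
in `a > 0`; in particular the resolvent condition holds for `x`. -/
theorem result :
    ∃ (X : Type) (_ : NormedAddCommGroup X) (_ : NormedSpace ℂ X) (_ : CompleteSpace X)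
      (T : ℝ → (X →L[ℂ] X)) (x : X),
      T 0 = 1 ∧
      (∀ s t : ℝ, 0 ≤ s → 0 ≤ t → T (s + t) = T s * T t) ∧
      (∀ y : X, ContinuousOn (fun t : ℝ => T t y) (Set.Ici (0 : ℝ))) ∧
      (∀ t : ℝ, 0 ≤ t → ∀ y : X, ‖T t y‖ = ‖y‖) ∧
      x ≠ 0 ∧
      ¬ Tendsto (fun t : ℝ => T t x) atTop (𝓝 0) ∧
      (∀ a : ℝ, 0 < a → ∀ s : ℝ, IntegrableOn (fun t : ℝ =>
        Complex.exp (-(((a : ℂ) + (s : ℂ) * Complex.I) * (t : ℂ))) • T t x) (Set.Ioi (0 : ℝ))) ∧
      (∃ K : ℝ, ∀ a : ℝ, 0 < a →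
        ∫⁻ s : ℝ, ((‖∫ t in Set.Ioi (0 : ℝ),
          Complex.exp (-(((a : ℂ) + (s : ℂ) * Complex.I) * (t : ℂ))) • T t x‖₊ : ENNReal)) ^ 2
          ≤ ENNReal.ofReal K) ∧
      Tendsto
        (fun a : ℝ => ENNReal.ofReal a *
          ∫⁻ s : ℝ, ((‖∫ t in Set.Ioi (0 : ℝ),
            Complex.exp (-(((a : ℂ) + (s : ℂ) * Complex.I) * (t : ℂ))) • T t x‖₊ : ENNReal)) ^ 2)
        (𝓝[>] (0 : ℝ)) (𝓝 0) := by
  open Pool.Agent.Lib.MP_ec63c8_an in
  refine ⟨C0, inferInstance, inferInstance, inferInstance, shift, bump, shift_zero,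
    fun s t _ _ => shift_add s t, fun y => (continuous_shift y).continuousOn,
    fun t _ y => norm_shift t y, ?_, not_stable, fun a ha s => integrableOn_laplace bump ha s,
    ⟨_, fun a ha => lintegral_resolvent_le ha⟩, resolvent_condition⟩
  intro h
  have := Pool.Agent.Lib.MP_ec63c8_an.one_le_norm_bump
  rw [h, norm_zero] at this
  linarith

end Pool.Agent.Results.MP_ec63c8_an.SufficiencyFails
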